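import Pool.Agent.H242.GX.Stm

set_option autoImplicit false

open Set Filter Topology
open scoped ContDiff

namespace Pool.Agent.H758.GX

open Pool.Agent.H242.GX

/-- the strip -/
theorem isOpen_strip (a : ℝ) : IsOpen {x : ℝ × ℝ | |x.2| < a} :=
  isOpen_lt (continuous_snd.abs) continuous_const

/-- A smooth map with invertible derivative has a smooth local inverse. -/
theorem local_inverse {F : ℝ × ℝ → ℝ × ℝ} {x : ℝ × ℝ} (hF : ContDiffAt ℝ ∞ F x)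
    (hinj : Function.Injective (fderiv ℝ F x)) :
    ∃ G : ℝ × ℝ → ℝ × ℝ, ContDiffAt ℝ ∞ G (F x) ∧ G (F x) = x ∧ ∀ᶠ y in 𝓝 (F x), F (G y) = y := by
  let L : (ℝ × ℝ) ≃L[ℝ] (ℝ × ℝ) :=
    (LinearEquiv.ofInjectiveEndo (fderiv ℝ F x : (ℝ × ℝ) →ₗ[ℝ] (ℝ × ℝ)) hinj).toContinuousLinearEquiv
  have hL : (L : (ℝ × ℝ) →L[ℝ] (ℝ × ℝ)) = fderiv ℝ F x := by
    ext <;> rfl
  have hd : HasFDerivAt F (L : (ℝ × ℝ) →L[ℝ] (ℝ × ℝ)) x := by
    rw [hL]
    exact (hF.differentiableAt (by simp)).hasFDerivAt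
  refine ⟨hF.localInverse hd (by simp), hF.to_localInverse hd (by simp), ?_, ?_⟩
  · exact hF.localInverse_apply_image hd (by simp)
  · exact (hF.hasStrictFDerivAt' hd (by simp)).eventually_right_inverse

theorem deriv_snd {f : ℝ × ℝ → ℝ} {θ β : ℝ} (hf : DifferentiableAt ℝ f (θ, β)) :
    deriv (fun b => f (θ, b)) β = fderiv ℝ f (θ, β) (0, 1) := by
  have h1 : HasDerivAt (fun b : ℝ => ((θ, b) : ℝ × ℝ)) (0, 1) β :=
    (hasDerivAt_const β θ).prodMk (hasDerivAt_id β)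
  have h2 := (hf.hasFDerivAt).comp_hasDerivAt β h1
  exact h2.deriv

theorem gx_INV : S_INV := by
  intro a f ha hf hpos hsurj
  have hcd : ∀ θ β : ℝ, |β| < a → ContDiffAt ℝ ∞ f (θ, β) := fun θ β hβ =>
    hf.contDiffAt ((isOpen_strip a).mem_nhds hβ)
  have hdiff : ∀ θ β : ℝ, |β| < a → DifferentiableAt ℝ f (θ, β) := fun θ β hβ =>
    (hcd θ β hβ).differentiableAt (by simp)
  have hcont : ∀ θ : ℝ, ContinuousOn (fun b => f (θ, b)) (Ioo (-a) a) := by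
    intro θ b hb
    have h1 := (hdiff θ b (abs_lt.2 hb)).continuousAt
    have h2 : ContinuousAt (fun b : ℝ => ((θ, b) : ℝ × ℝ)) b := by fun_prop
    exact (ContinuousAt.comp (f := fun b : ℝ => ((θ, b) : ℝ × ℝ)) h1 h2).continuousWithinAt
  have hmono : ∀ θ : ℝ, StrictMonoOn (fun b => f (θ, b)) (Ioo (-a) a) := by
    intro θ
    refine strictMonoOn_of_deriv_pos (convex_Ioo _ _) (hcont θ) ?_
    intro b hb
    rw [interior_Ioo] at hb
    exact hpos θ b (abs_lt.2 hb)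
  have hex : ∀ x : ℝ × ℝ, ∃ β : ℝ, |β| < a ∧ f (x.1, β) = x.2 := by
    rintro ⟨θ, t⟩
    obtain ⟨b1, b2, h1, h2, h3, h4⟩ := hsurj θ t
    have hsub : uIcc b1 b2 ⊆ Ioo (-a) a := by
      refine (ordConnected_Ioo.uIcc_subset (abs_lt.1 h1) (abs_lt.1 h2))
    have hiv := intermediate_value_uIcc ((hcont θ).mono hsub)
    have hmem : t ∈ uIcc (f (θ, b1)) (f (θ, b2)) := Icc_subset_uIcc ⟨h3, h4⟩
    obtain ⟨β, hβ, hβ2⟩ := hiv hmem
    exact ⟨β, abs_lt.2 (hsub hβ), hβ2⟩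
  choose g hg1 hg2 using hex
  have huniq : ∀ θ β t : ℝ, |β| < a → f (θ, β) = t → g (θ, t) = β := by
    intro θ β t hβ h
    refine (hmono θ).injOn (abs_lt.1 (hg1 (θ, t))) (abs_lt.1 hβ) ?_
    show f (θ, g (θ, t)) = f (θ, β)
    rw [h]
    exact hg2 (θ, t)
  refine ⟨g, ?_, hg1, fun θ t => hg2 (θ, t), fun θ β hβ => huniq θ β _ hβ rfl⟩
  rw [contDiff_iff_contDiffAt]
  rintro ⟨θ₀, t₀⟩
  set β₀ := g (θ₀, t₀) with hβ₀
  have hb : |β₀| < a := hg1 _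
  let F : ℝ × ℝ → ℝ × ℝ := fun x => (x.1, f x)
  have hF : ContDiffAt ℝ ∞ F (θ₀, β₀) := contDiffAt_fst.prodMk (hcd θ₀ β₀ hb)
  have hFx : F (θ₀, β₀) = (θ₀, t₀) := by
    simp only [F]
    rw [hg2 (θ₀, t₀)]
  have hfd : fderiv ℝ F (θ₀, β₀) = (ContinuousLinearMap.fst ℝ ℝ ℝ).prod (fderiv ℝ f (θ₀, β₀)) := by
    exact (hasFDerivAt_fst.prodMk (hdiff θ₀ β₀ hb).hasFDerivAt).fderiv
  have hinj : Function.Injective (fderiv ℝ F (θ₀, β₀)) := by
    rw [hfd, injective_iff_map_eq_zero]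
    rintro ⟨u, v⟩ huv
    simp only [ContinuousLinearMap.prod_apply, ContinuousLinearMap.coe_fst', Prod.mk_eq_zero] at huv
    obtain ⟨hu, hv⟩ := huv
    subst hu
    have h3 : ((0, v) : ℝ × ℝ) = v • (0, 1) := by simp
    rw [h3, map_smul, ← deriv_snd (hdiff θ₀ β₀ hb), smul_eq_mul, mul_eq_zero] at hv
    rcases hv with hv | hv
    · simp [hv]
    · exact absurd hv (hpos θ₀ β₀ hb).ne'
  obtain ⟨G, hG1, hG2, hG3⟩ := local_inverse hF hinj
  rw [hFx] at hG1 hG2 hG3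
  have hev : ∀ᶠ y in 𝓝 ((θ₀, t₀) : ℝ × ℝ), |(G y).2| < a := by
    have h4 : ContinuousAt (fun y => |(G y).2|) (θ₀, t₀) :=
      (continuous_snd.continuousAt.comp hG1.continuousAt).abs
    have h5 : |(G (θ₀, t₀)).2| < a := by rw [hG2]; exact hb
    exact h4.eventually (gt_mem_nhds h5)
  have heq : g =ᶠ[𝓝 ((θ₀, t₀) : ℝ × ℝ)] fun y => (G y).2 := by
    filter_upwards [hG3, hev] with y hy1 hy2
    have h5 : (F (G y)).1 = y.1 := by rw [hy1]
    have h6 : (F (G y)).2 = y.2 := by rw [hy1]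
    simp only [F] at h5 h6
    have h7 := huniq y.1 (G y).2 y.2 hy2 (by rw [← h5]; exact h6)
    exact h7
  exact (contDiffAt_snd.comp (θ₀, t₀) hG1).congr_of_eventuallyEq heq

end Pool.Agent.H758.GX
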