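import Pool.Agent.H758.GX.INV

set_option autoImplicit false

open Set Filter Topology
open scoped ContDiff

namespace Pool.Agent.H758.GX

open Pool.Agent.H242.GX

/-- normal coordinates with values in the plane of pairs -/
noncomputable def PF (p : ℝ → ℝ) (x : ℝ × ℝ) : ℝ × ℝ :=
  ((p x.1 + x.2) * Real.sin x.1 + deriv p x.1 * Real.cos x.1,
    -((p x.1 + x.2) * Real.cos x.1) + deriv p x.1 * Real.sin x.1)

theorem PF_eq (p : ℝ → ℝ) (x : ℝ × ℝ) :
    Complex.equivRealProdCLM (Psi p x.1 x.2) = PF p x := by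
  rw [Complex.equivRealProdCLM_apply]
  unfold Psi gam nu e PF
  apply Prod.ext
  · simp
    ring
  · simp
    ring

theorem PF_smooth {p : ℝ → ℝ} (hp : Supp p) : ContDiff ℝ ∞ (PF p) := by
  have h1 := hp.smooth
  have h2 : ContDiff ℝ ∞ (deriv p) := (contDiff_infty_iff_deriv.1 h1).2
  have h3 : ContDiff ℝ ∞ (fun x : ℝ × ℝ => p x.1) := h1.comp contDiff_fst
  have h4 : ContDiff ℝ ∞ (fun x : ℝ × ℝ => deriv p x.1) := h2.comp contDiff_fst
  have h5 : ContDiff ℝ ∞ (fun x : ℝ × ℝ => Real.sin x.1) := Real.contDiff_sin.comp contDiff_fst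
  have h6 : ContDiff ℝ ∞ (fun x : ℝ × ℝ => Real.cos x.1) := Real.contDiff_cos.comp contDiff_fst
  exact (((h3.add contDiff_snd).mul h5).add (h4.mul h6)).prodMk
    ((((h3.add contDiff_snd).mul h6).neg).add (h4.mul h5))

theorem PF_inj {p : ℝ → ℝ} (hp : Supp p) {φ y : ℝ} (hne : p φ + deriv (deriv p) φ + y ≠ 0) :
    Function.Injective (fderiv ℝ (PF p) (φ, y)) := by
  have hd : DifferentiableAt ℝ (PF p) (φ, y) := (PF_smooth hp).differentiable (by simp) _
  have h1 : HasDerivAt (fun b : ℝ => ((φ, b) : ℝ × ℝ)) (0, 1) y :=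
    (hasDerivAt_const y φ).prodMk (hasDerivAt_id y)
  have h2 : HasDerivAt (fun b : ℝ => ((b, y) : ℝ × ℝ)) (1, 0) φ :=
    (hasDerivAt_id φ).prodMk (hasDerivAt_const φ y)
  have h3 := (hd.hasFDerivAt).comp_hasDerivAt y h1
  have h4 := (hd.hasFDerivAt).comp_hasDerivAt φ h2
  have hp1 : HasDerivAt p (deriv p φ) φ := (hp.smooth.differentiable (by simp) φ).hasDerivAt
  have hs2 : ContDiff ℝ ∞ (deriv p) := (contDiff_infty_iff_deriv.1 hp.smooth).2
  have hp2 : HasDerivAt (deriv p) (deriv (deriv p) φ) φ :=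
    (hs2.differentiable (by simp) φ).hasDerivAt
  have h5 : HasDerivAt (PF p ∘ fun b : ℝ => ((φ, b) : ℝ × ℝ)) (Real.sin φ, -Real.cos φ) y := by
    have a1 : HasDerivAt (fun b : ℝ => (p φ + b) * Real.sin φ + deriv p φ * Real.cos φ)
        (Real.sin φ) y := by
      have := (((hasDerivAt_id y).const_add (p φ)).mul_const (Real.sin φ)).add_const
        (deriv p φ * Real.cos φ)
      simpa using this
    have a2 : HasDerivAt (fun b : ℝ => -((p φ + b) * Real.cos φ) + deriv p φ * Real.sin φ)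
        (-Real.cos φ) y := by
      have := ((((hasDerivAt_id y).const_add (p φ)).mul_const (Real.cos φ)).neg).add_const
        (deriv p φ * Real.sin φ)
      simpa using this
    exact a1.prodMk a2
  have h6 : HasDerivAt (PF p ∘ fun b : ℝ => ((b, y) : ℝ × ℝ))
      ((p φ + deriv (deriv p) φ + y) * Real.cos φ, (p φ + deriv (deriv p) φ + y) * Real.sin φ)
      φ := by
    have a1 : HasDerivAt (fun b : ℝ => (p b + y) * Real.sin b + deriv p b * Real.cos b)
        ((p φ + deriv (deriv p) φ + y) * Real.cos φ) φ := by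
      have := ((hp1.add_const y).mul (Real.hasDerivAt_sin φ)).add (hp2.mul (Real.hasDerivAt_cos φ))
      refine this.congr_deriv ?_
      ring
    have a2 : HasDerivAt (fun b : ℝ => -((p b + y) * Real.cos b) + deriv p b * Real.sin b)
        ((p φ + deriv (deriv p) φ + y) * Real.sin φ) φ := by
      have := (((hp1.add_const y).mul (Real.hasDerivAt_cos φ)).neg).add
        (hp2.mul (Real.hasDerivAt_sin φ))
      refine this.congr_deriv ?_
      ring
    exact a1.prodMk a2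
  have e1 : fderiv ℝ (PF p) (φ, y) (0, 1) = (Real.sin φ, -Real.cos φ) := h3.unique h5
  have e2 : fderiv ℝ (PF p) (φ, y) (1, 0) = ((p φ + deriv (deriv p) φ + y) * Real.cos φ,
      (p φ + deriv (deriv p) φ + y) * Real.sin φ) := h4.unique h6
  rw [injective_iff_map_eq_zero]
  rintro ⟨u, v⟩ huv
  have e3 : ((u, v) : ℝ × ℝ) = u • (1, 0) + v • (0, 1) := by simp
  rw [e3, map_add, map_smul, map_smul, e1, e2] at huv
  have hx := congrArg Prod.fst huv
  have hy := congrArg Prod.snd huv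
  simp only [Prod.fst_add, Prod.snd_add, Prod.smul_mk, smul_eq_mul, Prod.fst_zero,
    Prod.snd_zero] at hx hy
  have hsc := Real.sin_sq_add_cos_sq φ
  have hu : u * (p φ + deriv (deriv p) φ + y) = 0 := by
    linear_combination Real.cos φ * hx + Real.sin φ * hy -
      u * (p φ + deriv (deriv p) φ + y) * hsc
  have hv : v = 0 := by
    linear_combination Real.sin φ * hx - Real.cos φ * hy - v * hsc
  rcases mul_eq_zero.1 hu with h | h
  · simp [h, hv]
  · exact absurd h hne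

theorem per_int {H : ℝ × ℝ → ℝ} (hper : ∀ φ y, H (φ + 2 * Real.pi, y) = H (φ, y)) (φ y : ℝ)
    (k : ℤ) : H (φ + k * (2 * Real.pi), y) = H (φ, y) := by
  have h : Function.Periodic (fun φ => H (φ, y)) (2 * Real.pi) := fun φ => hper φ y
  exact h.int_mul k φ

theorem gx_DESC : S_DESC := by
  intro p y₁ H hp hy hinj hne hH hper
  let D : Set (ℝ × ℝ) := {x | -y₁ < x.2}
  have hDo : IsOpen D := isOpen_lt continuous_const continuous_snd
  let P : ℝ × ℝ → ℂ := fun x => Psi p x.1 x.2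
  let E := Complex.equivRealProdCLM
  have hE : ∀ x, E (P x) = PF p x := fun x => PF_eq p x
  have hwd : ∀ x ∈ D, ∀ x' ∈ D, P x = P x' → H x = H x' := by
    rintro ⟨φ, y⟩ hx ⟨φ', y'⟩ hx' h
    obtain ⟨h1, k, h2⟩ := hinj φ φ' y y' hx hx' h
    subst h1
    rw [h2, per_int hper]
  classical
  let Y : ℂ → ℝ := fun z => if h : ∃ x ∈ D, P x = z then H h.choose else 0
  have hY : ∀ x ∈ D, Y (P x) = H x := by
    intro x hx
    have hex : ∃ x' ∈ D, P x' = P x := ⟨x, hx, rfl⟩
    have h1 : Y (P x) = H hex.choose := dif_pos hex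
    rw [h1]
    exact hwd _ hex.choose_spec.1 x hx hex.choose_spec.2
  -- the local inverse
  have hloc : ∀ x ∈ D, ∃ G : ℝ × ℝ → ℝ × ℝ, ContDiffAt ℝ ∞ G (E (P x)) ∧
      ∀ᶠ z in 𝓝 (P x), G (E z) ∈ D ∧ P (G (E z)) = z := by
    intro x hx
    obtain ⟨G, hG1, hG2, hG3⟩ := local_inverse (F := PF p) (x := x)
      ((PF_smooth hp).contDiffAt) (PF_inj hp (hne x.1 x.2 hx))
    rw [← hE] at hG1 hG2 hG3
    refine ⟨G, hG1, ?_⟩
    have hEc : ContinuousAt (fun z : ℂ => E z) (P x) := E.continuous.continuousAt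
    have h1 : ContinuousAt (fun z : ℂ => G (E z)) (P x) :=
      ContinuousAt.comp (g := G) hG1.continuousAt hEc
    have h2 : ∀ᶠ z in 𝓝 (P x), G (E z) ∈ D := by
      refine h1.eventually (hDo.mem_nhds ?_)
      show G (E (P x)) ∈ D
      rw [hG2]
      exact hx
    have h3 : ∀ᶠ z in 𝓝 (P x), PF p (G (E z)) = E z := hEc.eventually hG3
    filter_upwards [h2, h3] with z hz1 hz2
    refine ⟨hz1, ?_⟩
    rw [← hE] at hz2
    exact E.injective hz2
  refine ⟨P '' D, Y, ?_, ?_, ?_, ?_⟩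
  · rw [isOpen_iff_mem_nhds]
    rintro z ⟨x, hx, rfl⟩
    obtain ⟨G, hG1, hG2⟩ := hloc x hx
    filter_upwards [hG2] with z hz
    exact ⟨_, hz.1, hz.2⟩
  · rintro z ⟨x, hx, rfl⟩
    obtain ⟨G, hG1, hG2⟩ := hloc x hx
    have hcd : ContDiffAt ℝ ∞ (fun z => H (G (E z))) (P x) := by
      have h1 : ContDiffAt ℝ ∞ (fun z : ℂ => G (E z)) (P x) :=
        ContDiffAt.comp (g := G) (P x) hG1 E.contDiff.contDiffAt
      exact ContDiffAt.comp (g := H) (P x) hH.contDiffAt h1
    refine (hcd.congr_of_eventuallyEq ?_).contDiffWithinAt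
    filter_upwards [hG2] with z hz
    have := hY _ hz.1
    rw [hz.2] at this
    exact this
  · intro φ y hyy
    exact ⟨⟨(φ, y), hyy, rfl⟩, hY (φ, y) hyy⟩
  · rintro z ⟨⟨φ, y⟩, hx, rfl⟩
    exact ⟨φ, y, hx, rfl⟩

end Pool.Agent.H758.GX
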